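import Pool.Agent.N929.EY.Stm

/-!
Project EY, task SEL2: sparse families of unit squares, failure probability `C / |P|`.
-/

set_option autoImplicit false

namespace Pool.Agent.N49.EY

open Finset
open Pool.Agent.N929.EX
open Pool.Agent.N929.EY

noncomputable section

/-- functions with prescribed values -/
theorem card_prescribed {B : Type} [Fintype B] [DecidableEq B] (S : Finset B) (f : B → Bool) :
    ((univ : Finset (B → Bool)).filter (fun ω => ∀ b ∈ S, ω b = f b)).card * 2 ^ S.card =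
      Fintype.card (B → Bool) := by
  have h1 : (univ : Finset (B → Bool)).filter (fun ω => ∀ b ∈ S, ω b = f b) =
      Fintype.piFinset (fun b => if b ∈ S then {f b} else univ) := by
    ext ω
    rw [mem_filter, Fintype.mem_piFinset]
    constructor
    · rintro ⟨-, h⟩ b
      split_ifs with hb
      · rw [mem_singleton]
        exact h b hb
      · exact mem_univ _
    · intro h
      refine ⟨mem_univ _, fun b hb => ?_⟩
      have := h b
      rw [if_pos hb, mem_singleton] at this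
      exact this
  rw [h1, Fintype.card_piFinset]
  have h2 : (2 : ℕ) ^ S.card = ∏ b : B, (if b ∈ S then 2 else 1) := by
    rw [Finset.prod_ite, Finset.prod_const, Finset.prod_const_one, mul_one]
    congr 2
    ext b
    simp
  rw [h2, ← Finset.prod_mul_distrib, Fintype.card_pi]
  refine Finset.prod_congr rfl fun b _ => ?_
  split_ifs <;> simp

/-- the big box -/
def Bx (N : ℕ) : Finset (ℤ × ℤ) :=
  (Icc (-((N : ℤ) + 1)) ((N : ℤ) + 1)) ×ˢ (Icc (-((N : ℤ) + 1)) ((N : ℤ) + 1))

/-- the inner box -/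
def In0 (N : ℕ) : Finset (ℤ × ℤ) :=
  (Icc (-(N : ℤ)) (N : ℤ)) ×ˢ (Icc (-(N : ℤ)) (N : ℤ))

/-- neighbours -/
def nr (b p : ℤ × ℤ) : Prop := |b.1 - p.1| ≤ 1 ∧ |b.2 - p.2| ≤ 1

instance (b p : ℤ × ℤ) : Decidable (nr b p) := by unfold nr; infer_instance

/-- close pairs -/
def cl (b p : ℤ × ℤ) : Prop := |b.1 - p.1| ≤ 2 ∧ |b.2 - p.2| ≤ 2

instance (b p : ℤ × ℤ) : Decidable (cl b p) := by unfold cl; infer_instance

abbrev Om (N : ℕ) : Type := ↥(Bx N) → Bool

/-- `p` is isolated in `ω` -/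
def Iso (N : ℕ) (ω : Om N) (p : ℤ × ℤ) : Prop :=
  ∀ b : ↥(Bx N), nr b.1 p → ω b = decide (b.1 = p)

instance (N : ℕ) (ω : Om N) (p : ℤ × ℤ) : Decidable (Iso N ω p) := by
  unfold Iso
  infer_instance

def La (N : ℕ) (ω : Om N) : Finset (ℤ × ℤ) := (In0 N).filter (Iso N ω)

theorem mem_In0 {N : ℕ} {p : ℤ × ℤ} : p ∈ In0 N ↔ |p.1| ≤ N ∧ |p.2| ≤ N := by
  unfold In0
  rw [mem_product, mem_Icc, mem_Icc, abs_le, abs_le]

theorem mem_Bx_of_nr {N : ℕ} {b p : ℤ × ℤ} (hp : p ∈ In0 N) (h : nr b p) : b ∈ Bx N := by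
  rw [mem_In0] at hp
  unfold nr at h
  unfold Bx
  rw [mem_product, mem_Icc, mem_Icc]
  rw [abs_le] at hp h
  rw [abs_le] at hp h
  omega

/-- the neighbours of `p` -/
def Sp (N : ℕ) (p : ℤ × ℤ) : Finset ↥(Bx N) := univ.filter (fun b => nr b.1 p)

theorem card_Sp {N : ℕ} {p : ℤ × ℤ} (hp : p ∈ In0 N) : (Sp N p).card = 9 := by
  have h1 : (Sp N p).map (Function.Embedding.subtype _) =
      (Icc (p.1 - 1) (p.1 + 1)) ×ˢ (Icc (p.2 - 1) (p.2 + 1)) := by
    ext b
    simp only [mem_map, Sp, mem_filter, mem_univ, true_and, Function.Embedding.subtype_apply,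
      Subtype.exists, exists_and_right, exists_eq_right, mem_product, mem_Icc]
    constructor
    · rintro ⟨hb, h⟩
      unfold nr at h
      rw [abs_le, abs_le] at h
      omega
    · intro h
      have h2 : nr b p := by
        unfold nr
        rw [abs_le, abs_le]
        omega
      exact ⟨mem_Bx_of_nr hp h2, h2⟩
  rw [← card_map (Function.Embedding.subtype _), h1, card_product, Int.card_Icc, Int.card_Icc]
  have e1 : (p.1 + 1 + 1 - (p.1 - 1)).toNat = 3 := by omega
  have e2 : (p.2 + 1 + 1 - (p.2 - 1)).toNat = 3 := by omega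
  rw [e1, e2]

theorem card_one {N : ℕ} {p : ℤ × ℤ} (hp : p ∈ In0 N) :
    ((univ : Finset (Om N)).filter (fun ω => Iso N ω p)).card * 512 = Fintype.card (Om N) := by
  have h := card_prescribed (Sp N p) (fun b => decide (b.1 = p))
  rw [card_Sp hp] at h
  have h1 : (univ : Finset (Om N)).filter (fun ω => Iso N ω p) =
      univ.filter (fun ω : Om N => ∀ b ∈ Sp N p, ω b = decide (b.1 = p)) := by
    ext ω
    rw [mem_filter, mem_filter]
    refine and_congr_right fun _ => ?_
    constructor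
    · intro h2 b hb
      exact h2 b (mem_filter.1 hb).2
    · intro h2 b hb
      exact h2 b (mem_filter.2 ⟨mem_univ _, hb⟩)
  rw [h1]
  exact h

theorem nr_self (x : ℤ × ℤ) : nr x x := by
  unfold nr
  simp

theorem iso_two (N : ℕ) (p q : ℤ × ℤ) (hne : ∀ b : ℤ × ℤ, nr b p → nr b q → False) (ω : Om N) :
    (Iso N ω p ∧ Iso N ω q) ↔
      ∀ b ∈ Sp N p ∪ Sp N q, ω b = decide (b.1 = p ∨ b.1 = q) := by
  constructor
  · rintro ⟨h1, h2⟩ b hb
    rw [mem_union] at hb
    rcases hb with hb | hb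
    · have hb' := (mem_filter.1 hb).2
      rw [h1 b hb']
      have : b.1 ≠ q := fun e => hne b hb' (e ▸ nr_self _)
      simp [this]
    · have hb' := (mem_filter.1 hb).2
      rw [h2 b hb']
      have : b.1 ≠ p := fun e => hne b (e ▸ nr_self _) hb'
      simp [this]
  · intro h3
    constructor
    · intro b hb
      rw [h3 b (mem_union_left _ (mem_filter.2 ⟨mem_univ _, hb⟩))]
      have : b.1 ≠ q := fun e => hne b hb (e ▸ nr_self _)
      simp [this]
    · intro b hb
      rw [h3 b (mem_union_right _ (mem_filter.2 ⟨mem_univ _, hb⟩))]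
      have : b.1 ≠ p := fun e => hne b (e ▸ nr_self _) hb
      simp [this]

theorem card_two {N : ℕ} {p q : ℤ × ℤ} (hp : p ∈ In0 N) (hq : q ∈ In0 N) (hpq : ¬ cl p q) :
    ((univ : Finset (Om N)).filter (fun ω => Iso N ω p ∧ Iso N ω q)).card * 512 ^ 2 =
      Fintype.card (Om N) := by
  have hne : ∀ b : ℤ × ℤ, nr b p → nr b q → False := by
    intro b h1 h2
    apply hpq
    unfold nr at h1 h2
    unfold cl
    rw [abs_le, abs_le] at *
    omega
  have hdis : Disjoint (Sp N p) (Sp N q) := by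
    rw [Finset.disjoint_left]
    intro b h1 h2
    exact hne b (mem_filter.1 h1).2 (mem_filter.1 h2).2
  have h := card_prescribed (Sp N p ∪ Sp N q) (fun b => decide (b.1 = p ∨ b.1 = q))
  rw [card_union_of_disjoint hdis, card_Sp hp, card_Sp hq] at h
  have h0 : (univ : Finset (Om N)).filter (fun ω => Iso N ω p ∧ Iso N ω q) =
      univ.filter (fun ω : Om N => ∀ b ∈ Sp N p ∪ Sp N q, ω b = decide (b.1 = p ∨ b.1 = q)) := by
    ext ω
    rw [mem_filter, mem_filter]
    refine and_congr_right fun _ => ?_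
    exact iso_two N p q hne ω
  rw [h0]
  exact h

/-- the indicator of `Iso` -/
def ia (N : ℕ) (p : ℤ × ℤ) (ω : Om N) : ℤ := if Iso N ω p then 1 else 0

theorem sum_ia {N : ℕ} {p : ℤ × ℤ} (hp : p ∈ In0 N) :
    512 * ∑ ω : Om N, ia N p ω = Fintype.card (Om N) := by
  unfold ia
  rw [Finset.sum_boole, ← card_one hp]
  push_cast
  ring

theorem cov_far {N : ℕ} {p q : ℤ × ℤ} (hp : p ∈ In0 N) (hq : q ∈ In0 N) (hpq : ¬ cl p q) :
    ∑ ω : Om N, (512 * ia N p ω - 1) * (512 * ia N q ω - 1) = 0 := by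
  have h1 : ∀ ω : Om N, (512 * ia N p ω - 1) * (512 * ia N q ω - 1) =
      512 ^ 2 * (if Iso N ω p ∧ Iso N ω q then 1 else 0) - 512 * ia N p ω - 512 * ia N q ω + 1 := by
    intro ω
    unfold ia
    by_cases hp : Iso N ω p <;> by_cases hq : Iso N ω q <;> simp [hp, hq]
  rw [Finset.sum_congr rfl fun ω _ => h1 ω, Finset.sum_add_distrib, Finset.sum_sub_distrib,
    Finset.sum_sub_distrib, ← Finset.mul_sum, ← Finset.mul_sum, ← Finset.mul_sum, sum_ia hp,
    sum_ia hq, Finset.sum_boole]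
  have h2 := card_two hp hq hpq
  have h3 : (512 : ℤ) ^ 2 * (((univ : Finset (Om N)).filter
      (fun ω => Iso N ω p ∧ Iso N ω q)).card : ℤ) = Fintype.card (Om N) := by
    rw [← h2]
    push_cast
    ring
  rw [h3]
  simp

theorem cov_le {N : ℕ} {p q : ℤ × ℤ} (hp : p ∈ In0 N) (hq : q ∈ In0 N) :
    ∑ ω : Om N, (512 * ia N p ω - 1) * (512 * ia N q ω - 1) ≤ 511 * Fintype.card (Om N) := by
  have h1 : ∀ ω : Om N, (512 * ia N p ω - 1) * (512 * ia N q ω - 1) ≤
      512 ^ 2 * ia N p ω - 512 * ia N p ω - 512 * ia N q ω + 1 := by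
    intro ω
    unfold ia
    by_cases hp : Iso N ω p <;> by_cases hq : Iso N ω q <;> simp [hp, hq]
  refine (Finset.sum_le_sum fun ω _ => h1 ω).trans ?_
  rw [Finset.sum_add_distrib, Finset.sum_sub_distrib,
    Finset.sum_sub_distrib, ← Finset.mul_sum, ← Finset.mul_sum, ← Finset.mul_sum, sum_ia hq]
  have h2 := sum_ia hp
  have h3 : (512 : ℤ) ^ 2 * ∑ ω : Om N, ia N p ω = 512 * Fintype.card (Om N) := by
    rw [← h2]
    ring
  rw [h3, h2]
  simp
  linarith

theorem near_card (P : Finset (ℤ × ℤ)) (p : ℤ × ℤ) : (P.filter (fun q => cl p q)).card ≤ 25 := by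
  have h1 : P.filter (fun q => cl p q) ⊆ (Icc (p.1 - 2) (p.1 + 2)) ×ˢ (Icc (p.2 - 2) (p.2 + 2)) := by
    intro q hq
    have h := (mem_filter.1 hq).2
    unfold cl at h
    rw [abs_le, abs_le] at h
    rw [mem_product, mem_Icc, mem_Icc]
    omega
  refine (card_le_card h1).trans ?_
  rw [card_product, Int.card_Icc, Int.card_Icc]
  have e1 : (p.1 + 2 + 1 - (p.1 - 2)).toNat = 5 := by omega
  have e2 : (p.2 + 2 + 1 - (p.2 - 2)).toNat = 5 := by omega
  rw [e1, e2]

theorem second {N : ℕ} (P : Finset (ℤ × ℤ)) (hP : ∀ p ∈ P, p ∈ In0 N) :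
    ∑ ω : Om N, (∑ p ∈ P, (512 * ia N p ω - 1)) ^ 2 ≤
      P.card * (25 * (511 * Fintype.card (Om N))) := by
  have h1 : ∑ ω : Om N, (∑ p ∈ P, (512 * ia N p ω - 1)) ^ 2 =
      ∑ p ∈ P, ∑ q ∈ P, ∑ ω : Om N, (512 * ia N p ω - 1) * (512 * ia N q ω - 1) := by
    have : ∀ ω : Om N, (∑ p ∈ P, (512 * ia N p ω - 1)) ^ 2 =
        ∑ p ∈ P, ∑ q ∈ P, (512 * ia N p ω - 1) * (512 * ia N q ω - 1) := by
      intro ω
      rw [sq, Finset.sum_mul_sum]
    rw [Finset.sum_congr rfl fun ω _ => this ω, Finset.sum_comm]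
    refine Finset.sum_congr rfl fun p _ => ?_
    rw [Finset.sum_comm]
  rw [h1]
  have h2 : ∀ p ∈ P, ∑ q ∈ P, ∑ ω : Om N, (512 * ia N p ω - 1) * (512 * ia N q ω - 1) ≤
      25 * (511 * Fintype.card (Om N)) := by
    intro p hp
    calc ∑ q ∈ P, ∑ ω : Om N, (512 * ia N p ω - 1) * (512 * ia N q ω - 1)
        ≤ ∑ q ∈ P, (if cl p q then 511 * (Fintype.card (Om N) : ℤ) else 0) := by
          refine Finset.sum_le_sum fun q hq => ?_
          split_ifs with h
          · exact cov_le (hP p hp) (hP q hq)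
          · exact (cov_far (hP p hp) (hP q hq) h).le
      _ = ((P.filter (fun q => cl p q)).card : ℤ) * (511 * Fintype.card (Om N)) := by
          rw [← Finset.sum_filter, Finset.sum_const, nsmul_eq_mul]
      _ ≤ 25 * (511 * Fintype.card (Om N)) := by
          have := near_card P p
          have h3 : ((P.filter (fun q => cl p q)).card : ℤ) ≤ 25 := by exact_mod_cast this
          exact mul_le_mul_of_nonneg_right h3 (by positivity)
  refine (Finset.sum_le_sum h2).trans ?_
  rw [Finset.sum_const, nsmul_eq_mul]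

theorem sel2 : S_SEL2 := by
  intro N
  refine ⟨Om N, inferInstance, inferInstance, La N, ?_, ?_⟩
  · intro ω p hp q hq hpq v hv
    obtain ⟨⟨h1, h2⟩, h3, h4⟩ := hv
    have hp' := mem_filter.1 hp
    have hq' := mem_filter.1 hq
    have hn : nr q p := by
      unfold nr
      rw [abs_le, abs_le]
      omega
    have hqq : nr q q := by
      unfold nr
      simp
    have e1 := hp'.2 ⟨q, mem_Bx_of_nr hq'.1 hqq⟩ hn
    have e2 := hq'.2 ⟨q, mem_Bx_of_nr hq'.1 hqq⟩ hqq
    rw [e1] at e2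
    simp [Ne.symm hpq] at e2
  · intro P hP
    have hP' : ∀ p ∈ P, p ∈ In0 N := fun p hp => mem_In0.2 (hP p hp)
    rcases P.eq_empty_or_nonempty with rfl | hne
    · simp
    have h2 := second P hP'
    have hX : ∀ ω : Om N, ∑ p ∈ P, (512 * ia N p ω - 1) =
        512 * ((La N ω ∩ P).card : ℤ) - P.card := by
      intro ω
      rw [Finset.sum_sub_distrib, ← Finset.mul_sum]
      have e1 : ∑ p ∈ P, ia N p ω = ((La N ω ∩ P).card : ℤ) := by
        have e0 : P.filter (fun p => Iso N ω p) = La N ω ∩ P := by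
          ext p
          rw [mem_filter, mem_inter]
          constructor
          · rintro ⟨h, h'⟩
            exact ⟨mem_filter.2 ⟨hP' p h, h'⟩, h⟩
          · rintro ⟨h', h⟩
            exact ⟨h, (mem_filter.1 h').2⟩
        unfold ia
        rw [Finset.sum_boole, e0]
      rw [e1, Finset.sum_const, nsmul_eq_mul, mul_one]
    set Bad := (univ : Finset (Om N)).filter (fun i => 1024 * (La N i ∩ P).card < P.card) with hBad
    have h3 : (Bad.card : ℤ) * (P.card : ℤ) ^ 2 ≤ 4 * (P.card * (25 * (511 * Fintype.card (Om N)))) := by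
      have h4 : ∑ ω ∈ Bad, (P.card : ℤ) ^ 2 ≤
          ∑ ω ∈ Bad, 4 * (∑ p ∈ P, (512 * ia N p ω - 1)) ^ 2 := by
        refine Finset.sum_le_sum fun ω hω => ?_
        have h5 := (mem_filter.1 hω).2
        rw [hX]
        have h6 : 1024 * ((La N ω ∩ P).card : ℤ) < P.card := by exact_mod_cast h5
        nlinarith
      rw [Finset.sum_const, nsmul_eq_mul] at h4
      refine h4.trans ?_
      rw [← Finset.mul_sum]
      have h7 : ∑ ω ∈ Bad, (∑ p ∈ P, (512 * ia N p ω - 1)) ^ 2 ≤
          ∑ ω : Om N, (∑ p ∈ P, (512 * ia N p ω - 1)) ^ 2 :=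
        Finset.sum_le_sum_of_subset_of_nonneg (Finset.subset_univ _) fun _ _ _ => sq_nonneg _
      linarith
    have hpos : (0 : ℤ) < P.card := by exact_mod_cast Finset.card_pos.2 hne
    have h8 : (P.card : ℤ) * Bad.card ≤ 51100 * Fintype.card (Om N) := by
      have h9 : (P.card : ℤ) * ((P.card : ℤ) * Bad.card) ≤
          (P.card : ℤ) * (51100 * Fintype.card (Om N)) := by
        nlinarith
      exact le_of_mul_le_mul_left h9 hpos
    have h10 : (P.card : ℤ) * Bad.card ≤ 100000 * Fintype.card (Om N) := by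
      have : (0 : ℤ) ≤ Fintype.card (Om N) := by positivity
      linarith
    exact_mod_cast h10

end

end Pool.Agent.N49.EY
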